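import Mathlib
import Pool.Agent.U922.WO.Fin

/-!
# Growth rates of all finite schemes of a given degree: well-ordering and finite certificates

The growth rate of a finite scheme `Γ` of degree `d` is the limit of the `n`-th roots of
`deg Γ^n + δ(Γ^n)`; it is at least `d`, and Q1 holds for `Γ` if and only if it is `d`.

**Theorem.** Let `k` be algebraically closed. The set of the growth rates of the finite `k`-schemes of
degree `d` is well-ordered. Hence there is an `ε > 0` (which depends on `k` and `d`) such that Q1 holds
for a finite scheme `Γ` of degree `d` if and only if `d ^ n + δ(Γ^n) < (d + ε) ^ n` for one `n ≥ 1`.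

For *local* schemes this is the starting file `WellOrderedRates`. The growth rate of a disjoint union
`Γ₁ ⊔ ⋯ ⊔ Γ_s` is not determined by the growth rates of the `Γ_i`: it depends on the growth rates
of all the mixed powers `Γ₁^(t 1) × ⋯ × Γ_s^(t s)`. The proof: the mixed powers of local schemes are
local, and their structure constants are polynomials in the structure constants of the parts; so the
closure theorem for local schemes applies to each of them, with the bound
`rate (Γ₁^(t 1) × ⋯ × Γ_s^(t s)) ≤ rate (Γ₁ ⊔ ⋯ ⊔ Γ_s)^N / (number of words of type t)`, and the sum
over all the words of length `N` loses only the number of types, a polynomial in `N`. It follows that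
the growth rate does not increase at the points of the Zariski closure in the space of `s`-tuples of
local algebras, and the theorem follows as this space is noetherian.
-/

set_option autoImplicit false

namespace Pool.Agent.Results.MP_44217d_ag.AllFiniteSchemes

open Pool.Agent.H826R3.SM Pool.Agent.TH671.DU Pool.Agent.U922.WO

/-- `allRates k d`: the growth rates of the non-empty finite `k`-schemes of degree `d`. -/
theorem result (k : Type) [Field k] [IsAlgClosed k] (d : ℕ) :
    (allRates k d).IsWF ∧
    ∃ ε : ℝ, 0 < ε ∧ ∀ (A : Type) [CommRing A] [Algebra k A] [Module.Finite k A] [Nontrivial A],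
      Module.finrank k A = d →
        (QOne k A ↔ ∃ n : ℕ, 1 ≤ n ∧
          (d : ℝ) ^ n + defect k (Pow k A n) < ((d : ℝ) + ε) ^ n) :=
  ⟨allRates_isWF d, gap_all d⟩

end Pool.Agent.Results.MP_44217d_ag.AllFiniteSchemes
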