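import Mathlib
import Pool.Agent.U627.ZC.Char

/-!
# Q1 depends only on the characteristic of the base field

The growth rate of a finite scheme `Γ` of degree `d` is the limit of the `n`-th roots of
`deg Γ^n + δ(Γ^n)`; it is at least `d`, and Q1 holds for `Γ` if and only if it is `d`.

**Theorem.** (1) The growth rate does not change under extensions `K / k` of algebraically closed
fields, and Q1 holds for `Γ` if and only if it holds for `Γ_K`. (2) Let `k` and `K` be any two
algebraically closed fields of the same characteristic. For all `d` and `x`, all finite `k`-schemes of
degree `d` have growth rate at most `x` if and only if all finite `K`-schemes of degree `d` have; and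
Q1 holds for all finite `k`-schemes of degree `d` if and only if it holds for all finite `K`-schemes
of degree `d`. So it is enough to study Q1 over the algebraic closures of the prime fields.

The difficult direction of (2) is the passage to a larger field: most `K`-schemes are not defined over
`k`, and Q1 is not a first order property (the exponent `n` in the limit depends on the scheme). A
`K`-scheme `Γ` of degree `d` has a model over a finitely generated `k`-subalgebra `R` of `K`; the
`k`-points of `Spec R` give `k`-schemes, and their base changes to `K` have `Γ` in their Zariski
closure; the growth rate is semicontinuous on the Zariski closure, for all (also for non-local)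
schemes. The proof of (1) uses a Nullstellensatz argument for unions of lines for local schemes and a
count of words in mixed powers for the others.
-/

set_option autoImplicit false

namespace Pool.Agent.Results.MP_44217d_ag.BaseFields

open Pool.Agent.H826R3.SM Pool.Agent.TH671.DU
open scoped TensorProduct

/-- All non-empty finite `k`-schemes of degree `d` have growth rate at most `x`. -/
def RatesAtMost (k : Type) [Field k] (d : ℕ) (x : ℝ) : Prop :=
  ∀ (A : Type) [CommRing A] [Algebra k A] [Module.Finite k A] [Nontrivial A],
    Module.finrank k A = d → rate k A ≤ x

/-- Q1 holds for all non-empty finite `k`-schemes of degree `d`. -/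
def QOneInDegree (k : Type) [Field k] (d : ℕ) : Prop :=
  ∀ (A : Type) [CommRing A] [Algebra k A] [Module.Finite k A] [Nontrivial A],
    Module.finrank k A = d → QOne k A

/-- * Let `K` be an algebraically closed extension of the algebraically closed field `k` and `A` a
  non-zero finite-dimensional commutative `k`-algebra. Then the growth rate of `Spec (K ⊗ A)` is that
  of `Spec A`, and Q1 holds for `Spec (K ⊗ A)` if and only if it holds for `Spec A`.
* Let `k` and `K` be algebraically closed fields of the same characteristic `p`. All finite
  `k`-schemes of degree `d` have growth rate at most `x` if and only if all finite `K`-schemes of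
  degree `d` have growth rate at most `x`. Q1 holds for all finite `k`-schemes of degree `d` if and
  only if it holds for all finite `K`-schemes of degree `d`. -/
theorem result :
    (∀ (k K : Type) [Field k] [IsAlgClosed k] [Field K] [IsAlgClosed K] [Algebra k K] (A : Type)
      [CommRing A] [Algebra k A] [Module.Finite k A] [Nontrivial A],
      rate K (K ⊗[k] A) = rate k A ∧ (QOne K (K ⊗[k] A) ↔ QOne k A)) ∧
    ∀ (p : ℕ) (k K : Type) [Field k] [IsAlgClosed k] [CharP k p] [Field K] [IsAlgClosed K]
      [CharP K p] (d : ℕ),
      (∀ x : ℝ, RatesAtMost k d x ↔ RatesAtMost K d x) ∧ (QOneInDegree k d ↔ QOneInDegree K d) :=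
  ⟨fun k K _ _ _ _ _ A _ _ _ _ => ⟨Pool.Agent.U627.ZC.rate_baseChange (k := k) (K := K) A,
      Pool.Agent.U627.ZC.qOne_baseChange (k := k) (K := K) A⟩,
    fun p k K _ _ _ _ _ _ d => ⟨fun x => Pool.Agent.U627.ZC.ratesAtMost_char p k K d x,
      Pool.Agent.U627.ZC.qOneInDegree_char p k K d⟩⟩

end Pool.Agent.Results.MP_44217d_ag.BaseFields
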