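import Mathlib
import Pool.Agent.U627.ZC.Fam

/-!
# Growth rates and Q1 are characterized by finitely many polynomials over the prime field

The growth rate of a finite scheme `Γ` of degree `d` is the limit of the `n`-th roots of
`deg Γ^n + δ(Γ^n)`; it is at least `d`, and Q1 holds for `Γ` if and only if it is `d`.

**Theorem.** Let `F` be a perfect field (for example a prime field), `d ≥ 1` and `x` a real number.
There are finitely many polynomials over `F` such that, for every algebraically closed field `K`
which contains `F` and every algebra `A` of dimension `d` over `K` with a basis, the growth rate of
`Spec A` is at most `x` if and only if the polynomials vanish at the structure constants of `A`. The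
same holds for Q1. So in every finite free family over an `F`-scheme the locus where the growth rate
is at most `x`, and the locus of Q1, are closed, at all geometric points.

No condition is imposed on the schemes. The starting file `WellOrderedRates` has closedness over one
field at the points with a *local* fibre. If the special fibre `Γ₀` has several points then the
nearby fibres are disjoint unions, but only after a base change; and the growth rate of a disjoint
union is not determined by the growth rates of its parts. The proof, over one field: a function `a` on
the family, which separates the points of `Γ₀`, satisfies a monic equation; over the finite cover by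
the ordered roots `r_j` of this equation the products of the `a - r_j` over blocks of indices split
the family near a point over `Γ₀` into parts whose structure constants are regular functions divided
by a determinant; this point is in the closure of the preimage of the given set, as the cover is
integral (lying over). Then the closure theorem for tuples of local algebras (`Pool.Agent.U922.WO`)
applies. From one field to all fields: the growth rate does not change under extensions of the base
field, does not increase from a geometric generic to a special fibre, and is bounded at the geometric
generic fibre by its bound at a dense set of fibres; finally Galois descent.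
-/

set_option autoImplicit false

namespace Pool.Agent.Results.MP_44217d_ag.ClosedInFamilies

open Pool.Agent.H826R3.SM Pool.Agent.TH671.DU
open MvPolynomial
open scoped TensorProduct

/-- The structure constants of the algebra `A` with the basis `c` of `d` elements, and the
coordinates of its unit. -/
noncomputable def constants {K A : Type} [Field K] [CommRing A] [Algebra K A] {d : ℕ}
    (c : Module.Basis (Fin d) K A) : (Fin d × Fin d × Fin d) ⊕ Fin d → K :=
  Sum.elim (fun z => c.repr (c z.1 * c z.2.1) z.2.2) (fun i => c.repr 1 i)

/-- The condition `C` on algebras of dimension `d` over algebraically closed fields which contain `F`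
is given by finitely many polynomials over `F` in the structure constants, for all bases. -/
def IsPolynomial (F : Type) [Field F] (d : ℕ)
    (C : ∀ (K : Type) [Field K] (A : Type) [CommRing A] [Algebra K A], Prop) : Prop :=
  ∃ W : Finset (MvPolynomial ((Fin d × Fin d × Fin d) ⊕ Fin d) F),
    ∀ (K : Type) [Field K] [IsAlgClosed K] [Algebra F K] (A : Type) [CommRing A] [Algebra K A]
      (c : Module.Basis (Fin d) K A), C K A ↔ ∀ G ∈ W, aeval (constants c) G = 0

/-- The condition `C` is closed in families, at all geometric points: for every `F`-algebra `R` and
every `R`-algebra `E` which is free with a basis of `d` elements there is a finitely generated ideal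
`I` of `R` such that, for all geometric points `R → K`, the condition holds for the geometric fibre
`K ⊗ E` if and only if `I` goes to zero in `K`. -/
def IsClosed (F : Type) [Field F] (d : ℕ)
    (C : ∀ (K : Type) [Field K] (A : Type) [CommRing A] [Algebra K A], Prop) : Prop :=
  ∀ (R E : Type) [CommRing R] [Algebra F R] [CommRing E] [Algebra R E],
    Nonempty (Module.Basis (Fin d) R E) → ∃ I : Ideal R, I.FG ∧
      ∀ (K : Type) [Field K] [IsAlgClosed K] [Algebra F K] [Algebra R K] [IsScalarTower F R K],
        C K (K ⊗[R] E) ↔ ∀ r ∈ I, algebraMap R K r = 0

/-- Let `F` be a perfect field and `d ≥ 1`. For every real number `x` the condition that the growth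
rate of `Spec A` is at most `x` is given by finitely many polynomials over `F` in the structure
constants and is closed in families, at all geometric points. The same holds for the condition that
Q1 holds for `Spec A`. -/
theorem result (F : Type) [Field F] [PerfectField F] (d : ℕ) (hd : 1 ≤ d) :
    (∀ x : ℝ, IsPolynomial F d (fun K _ A _ _ => rate K A ≤ x) ∧
      IsClosed F d (fun K _ A _ _ => rate K A ≤ x)) ∧
    IsPolynomial F d (fun K _ A _ _ => QOne K A) ∧ IsClosed F d (fun K _ A _ _ => QOne K A) := by
  have hnt : ∀ (K : Type) [Field K] (A : Type) [CommRing A] [Algebra K A]
      (_ : Module.Basis (Fin d) K A), Nontrivial A := by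
    intro K _ A _ _ c
    have hfin : Module.Finite K A := Module.Finite.of_basis c
    exact Module.nontrivial_of_finrank_pos (R := K) (by
      rw [Module.finrank_eq_card_basis c, Fintype.card_fin]
      exact hd)
  refine ⟨fun x => ⟨?_, ?_⟩, ?_, ?_⟩
  · obtain ⟨W, hW⟩ := Pool.Agent.U627.ZC.exists_finset_perfect F d hd x
    refine ⟨W, fun K _ _ _ A _ _ c => ?_⟩
    have := hnt K A c
    exact hW K A c
  · rintro R E _ _ _ _ ⟨b⟩
    exact Pool.Agent.U627.ZC.exists_ideal F hd x b
  · obtain ⟨W, hW⟩ := Pool.Agent.U627.ZC.exists_finset_perfect F d hd d
    refine ⟨W, fun K _ _ _ A _ _ c => ?_⟩
    have := hnt K A c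
    exact (Pool.Agent.U627.ZC.qOne_iff_le c).trans (hW K A c)
  · rintro R E _ _ _ _ ⟨b⟩
    obtain ⟨I, hI, hI'⟩ := Pool.Agent.U627.ZC.exists_ideal F hd d b
    refine ⟨I, hI, ?_⟩
    intro K _ _ _ _ _
    have := hnt K (K ⊗[R] E) (Algebra.TensorProduct.basis K b)
    exact (Pool.Agent.U627.ZC.qOne_iff_le (Algebra.TensorProduct.basis K b)).trans (hI' K)

end Pool.Agent.Results.MP_44217d_ag.ClosedInFamilies
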