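import Mathlib
import Pool.Agent.U627.ZC.Sup

/-!
# The set of the growth rates of degree `d` is compact and well-ordered

The growth rate of a finite scheme `Γ` of degree `d` is the limit of the `n`-th roots of
`deg Γ^n + δ(Γ^n)`; it is at least `d`, and Q1 holds for `Γ` if and only if it is `d`.

**Theorem.** Let `F` be a perfect field, for example a prime field, and `d ≥ 1`. Let `R` be the set of
the growth rates of all finite schemes of degree `d` over all algebraically closed fields which
contain `F` (if `F` is a prime field: all algebraically closed fields of the characteristic). `R` is
compact and every nonempty subset of `R` has a least element. So the limit of an increasing sequence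
of growth rates is again the growth rate of a scheme (over a larger field), and there is ONE
finite scheme `Γ` of degree `d` over some `K` with the largest growth rate; Q1 holds for `Γ` if and
only if it holds for all schemes of degree `d` over all these fields. If Q1 fails for a scheme of
degree `d` then there is a gap above `d` which is uniform in the fields.

Proof. The growth rate is characterized by finitely many polynomials over `F` (`ClosedInFamilies`).
Given schemes `Γ_y` over fields `K_y`, let `P` be the `F`-subalgebra of the product of all `K_y` which is
generated by the structure constants. It is noetherian; the geometric generic fibres over its minimal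
primes are finitely many schemes, one of them has exactly the supremum of the growth rates of the
`Γ_y` as its growth rate: upper bounds are given by polynomials which vanish on `P`, and the
polynomials which vanish at the generic fibres vanish at the points. The least elements come from
the ascending chain condition for the ideals of the closed loci.
-/

set_option autoImplicit false

namespace Pool.Agent.Results.MP_44217d_ag.RatesAreCompact

open Pool.Agent.H826R3.SM Pool.Agent.TH671.DU

/-- The growth rates of the finite schemes of degree `d` over the algebraically closed fields `K` which
contain `F`. -/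
def rates (F : Type) [Field F] (d : ℕ) : Set ℝ :=
  {x | ∃ (K : Type) (_ : Field K) (_ : IsAlgClosed K) (_ : Algebra F K) (A : Type) (_ : CommRing A)
    (_ : Algebra K A), Module.Finite K A ∧ Module.finrank K A = d ∧ rate K A = x}

theorem rates_eq (F : Type) [Field F] (d : ℕ) : rates F d = Pool.Agent.U627.ZC.rates F d := by
  ext x
  constructor
  · rintro ⟨K, _, _, _, A, _, _, hfin, hd, hx⟩
    exact ⟨K, inferInstance, inferInstance, inferInstance, A, inferInstance, inferInstance,
      Module.finBasisOfFinrankEq K A hd, hx⟩
  · rintro ⟨K, _, _, _, A, _, _, c, hx⟩
    exact ⟨K, inferInstance, inferInstance, inferInstance, A, inferInstance, inferInstance,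
      Module.Finite.of_basis c, by rw [Module.finrank_eq_card_basis c, Fintype.card_fin], hx⟩

/-- Let `F` be a perfect field and `d ≥ 1`. The set `R` of the growth rates of all finite schemes of
degree `d` over all algebraically closed fields which contain `F` is compact, every nonempty subset
of `R` has a least element, and there is one finite scheme `Γ` of degree `d` over one of these fields
whose growth rate is the maximum of `R` and for which Q1 holds if and only if Q1 holds for all
finite schemes of degree `d` over all these fields. -/
theorem result (F : Type) [Field F] [PerfectField F] (d : ℕ) (hd : 1 ≤ d) :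
    IsCompact (rates F d) ∧
    (∀ S : Set ℝ, S ⊆ rates F d → S.Nonempty → ∃ x ∈ S, ∀ y ∈ S, x ≤ y) ∧
    ∃ (K : Type) (_ : Field K) (_ : IsAlgClosed K) (_ : Algebra F K) (Γ : Type) (_ : CommRing Γ)
      (_ : Algebra K Γ), Module.Finite K Γ ∧ Module.finrank K Γ = d ∧
      (∀ x ∈ rates F d, x ≤ rate K Γ) ∧
      (QOne K Γ ↔ ∀ (k : Type) [Field k] [IsAlgClosed k] [Algebra F k] (A : Type) [CommRing A]
        [Algebra k A] [Module.Finite k A] [Nontrivial A], Module.finrank k A = d → QOne k A) := by
  have hc : IsCompact (rates F d) := by
    rw [rates_eq]
    exact Pool.Agent.U627.ZC.isCompact_rates F hd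
  refine ⟨hc, fun S hS hne => ?_, ?_⟩
  · rw [rates_eq] at hS
    exact Pool.Agent.U627.ZC.exists_least F hd S hS hne
  have hne : (rates F d).Nonempty := by
    let k := AlgebraicClosure F
    exact ⟨rate k (Fin d → k), k, inferInstance, inferInstance, inferInstance, (Fin d → k),
      inferInstance, inferInstance, inferInstance, by simp, rfl⟩
  obtain ⟨x, ⟨K, _, _, _, Γ, _, _, hfin, hdim, hx⟩, hmax⟩ := hc.exists_isGreatest hne
  have hmax' : ∀ y ∈ rates F d, y ≤ rate K Γ := fun y hy => by rw [hx]; exact hmax hy
  have hnt : Nontrivial Γ := Module.nontrivial_of_finrank_pos (R := K) (by rw [hdim]; exact hd)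
  refine ⟨K, inferInstance, inferInstance, inferInstance, Γ, inferInstance, inferInstance, hfin,
    hdim, hmax', ?_, fun h => h K Γ hdim⟩
  intro h k _ _ _ A _ _ _ _ hA
  rw [qOne_iff_rate, hdim] at h
  have h1 := hmax' (rate k A) ⟨k, inferInstance, inferInstance, inferInstance, A, inferInstance,
    inferInstance, inferInstance, hA, rfl⟩
  rw [h] at h1
  rw [qOne_iff_rate, hA]
  refine le_antisymm h1 ?_
  have h2 := finrank_le_rate (k := k) A
  rwa [hA] at h2

end Pool.Agent.Results.MP_44217d_ag.RatesAreCompact
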